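import Mathlib

/-!
# LB: the number of solutions of `h₁ z₁ + h₂ z₂ + h₃ z₃ = 0`

`bilin`: for `1 ≤ B ≤ A` the equation has at most `288 (A B)²` solutions with `1 ≤ |h_i| ≤ B`, `|z_i| ≤ A`.
-/

namespace Pool.Agent.Helper83.LB

open Finset

/-- The nonzero integers of absolute value at most `B`. -/
noncomputable def nz (B : ℕ) : Finset ℤ := (Icc (-(B : ℤ)) B).erase 0

/-- The integers of absolute value at most `A`. -/
noncomputable def bx (A : ℕ) : Finset ℤ := Icc (-(A : ℤ)) A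

theorem mem_bx {A : ℕ} {z : ℤ} : z ∈ bx A ↔ z.natAbs ≤ A := by
  rw [bx, mem_Icc]; omega

theorem mem_nz {B : ℕ} {z : ℤ} : z ∈ nz B ↔ z ≠ 0 ∧ z.natAbs ≤ B := by
  rw [nz, mem_erase, mem_Icc]; omega

theorem card_class {A k : ℕ} (hk : 0 < k) (T : Finset ℤ) (hT : ∀ t ∈ T, t ∈ bx A)
    (hd : ∀ s ∈ T, ∀ t ∈ T, (k : ℤ) ∣ s - t) : T.card * k ≤ 2 * A + k := by
  rcases T.eq_empty_or_nonempty with rfl | hne
  · simp
  · set t₀ := T.min' hne with ht₀
    have ht₀m : t₀ ∈ T := T.min'_mem hne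
    have h1 : T.card ≤ (range (2 * A / k + 1)).card := by
      apply card_le_card_of_injOn (fun t => ((t - t₀) / k).toNat)
      · intro t ht
        have ht' := mem_bx.mp (hT t ht)
        have h0' := mem_bx.mp (hT t₀ ht₀m)
        have hle : t₀ ≤ t := T.min'_le t ht
        rw [coe_range, Set.mem_Iio]
        have h2 : (t - t₀) / (k : ℤ) ≤ ((2 * A / k : ℕ) : ℤ) := by
          rw [Int.natCast_div]
          exact Int.ediv_le_ediv (by exact_mod_cast hk) (by push_cast; omega)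
        exact Nat.lt_succ_of_le (Int.toNat_le.mpr h2)
      · intro s hs t ht hst
        have hles : t₀ ≤ s := T.min'_le s hs
        have hlet : t₀ ≤ t := T.min'_le t ht
        obtain ⟨c, hc⟩ := hd s hs t₀ ht₀m
        obtain ⟨d, hd'⟩ := hd t ht t₀ ht₀m
        have hk' : (k : ℤ) ≠ 0 := by exact_mod_cast hk.ne'
        simp only at hst
        rw [hc, hd', Int.mul_ediv_cancel_left _ hk', Int.mul_ediv_cancel_left _ hk'] at hst
        have hkp : (0 : ℤ) < k := by exact_mod_cast hk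
        have hc0 : 0 ≤ c := by
          by_contra hcon
          have : (k : ℤ) * c < 0 := mul_neg_of_pos_of_neg hkp (by omega)
          omega
        have hd0 : 0 ≤ d := by
          by_contra hcon
          have : (k : ℤ) * d < 0 := mul_neg_of_pos_of_neg hkp (by omega)
          omega
        have : c = d := by omega
        rw [this] at hc
        omega
    rw [card_range] at h1
    calc T.card * k ≤ (2 * A / k + 1) * k := Nat.mul_le_mul_right k h1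
      _ = 2 * A / k * k + k := by ring
      _ ≤ 2 * A + k := by have := Nat.div_mul_le_self (2 * A) k; omega

theorem card_mult_bx {A d : ℕ} (hd : 0 < d) (hdA : d ≤ A) :
    ((bx A).filter (fun z => (d : ℤ) ∣ z)).card * d ≤ 3 * A := by
  have h := card_class (A := A) hd ((bx A).filter (fun z => (d : ℤ) ∣ z))
    (fun t ht => (mem_filter.mp ht).1)
    (fun s hs t ht => dvd_sub (mem_filter.mp hs).2 (mem_filter.mp ht).2)
  omega

theorem card_mult_nz {B e : ℕ} (he : 0 < e) :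
    ((nz B).filter (fun z => (e : ℤ) ∣ z)).card * e ≤ 2 * B := by
  have h := card_class (A := B) he (insert 0 ((nz B).filter (fun z => (e : ℤ) ∣ z)))
    (fun t ht => by
      rcases mem_insert.mp ht with rfl | ht
      · rw [mem_bx]; simp
      · exact mem_bx.mpr (mem_nz.mp (mem_filter.mp ht).1).2)
    (fun s hs t ht => by
      have hs' : (e : ℤ) ∣ s := by
        rcases mem_insert.mp hs with rfl | hs
        · exact dvd_zero _
        · exact (mem_filter.mp hs).2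
      have ht' : (e : ℤ) ∣ t := by
        rcases mem_insert.mp ht with rfl | ht
        · exact dvd_zero _
        · exact (mem_filter.mp ht).2
      exact dvd_sub hs' ht')
  rw [card_insert_of_notMem (by simp [mem_nz])] at h
  rw [add_mul, one_mul] at h
  omega

/-- For fixed nonzero `h₁`, `h₂` and `n`. -/
theorem count2 {A : ℕ} {h₁ h₂ n : ℤ} (h1 : h₁ ≠ 0) (hA : h₁.natAbs ≤ A) :
    (((bx A ×ˢ bx A).filter (fun z => h₁ * z.1 + h₂ * z.2 = n)).card : ℝ) ≤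
      3 * A * (Int.gcd h₁ h₂ : ℝ) / (h₁.natAbs : ℝ) := by
  set F := (bx A ×ˢ bx A).filter (fun z => h₁ * z.1 + h₂ * z.2 = n) with hF
  have hg : 0 < Int.gcd h₁ h₂ := Int.gcd_pos_of_ne_zero_left _ h1
  obtain ⟨u, v, huv, hu, hv⟩ := Int.exists_gcd_one hg
  set g := Int.gcd h₁ h₂ with hgdef
  have hu0 : u ≠ 0 := by rintro rfl; apply h1; rw [hu]; simp
  have hgz : (g : ℤ) ≠ 0 := by exact_mod_cast hg.ne'
  have hcop : IsCoprime u v := Int.isCoprime_iff_gcd_eq_one.mpr huv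
  have hnat : h₁.natAbs = u.natAbs * g := by
    rw [hu, Int.natAbs_mul, Int.natAbs_natCast]
  have hinj : F.card = (F.image Prod.snd).card := by
    symm
    apply card_image_of_injOn
    rintro ⟨a, b⟩ hab ⟨c, d⟩ hcd hbd
    rw [mem_coe, hF, mem_filter] at hab hcd
    have e1 := hab.2
    have e2 := hcd.2
    simp only at e1 e2 hbd
    subst hbd
    have : h₁ * (a - c) = 0 := by linear_combination e1 - e2
    rcases mul_eq_zero.mp this with h | h
    · exact absurd h h1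
    · ext <;> simp; omega
  have hcl := card_class (A := A) (k := u.natAbs) (Int.natAbs_pos.mpr hu0) (F.image Prod.snd)
    (fun t ht => by
      obtain ⟨z, hz, rfl⟩ := mem_image.mp ht
      exact (mem_product.mp (mem_filter.mp hz).1).2)
    (fun s hs t ht => by
      obtain ⟨z, hz, rfl⟩ := mem_image.mp hs
      obtain ⟨z', hz', rfl⟩ := mem_image.mp ht
      have e1 := (mem_filter.mp hz).2
      have e2 := (mem_filter.mp hz').2
      have e3 : h₂ * (z.2 - z'.2) = h₁ * (z'.1 - z.1) := by linear_combination e1 - e2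
      rw [hu, hv] at e3
      have e4 : v * (z.2 - z'.2) = u * (z'.1 - z.1) := by
        apply mul_left_cancel₀ hgz
        linear_combination e3
      rw [Int.natAbs_dvd]
      exact hcop.dvd_of_dvd_mul_left (Dvd.intro _ e4.symm))
  rw [← hinj] at hcl
  have huA : u.natAbs ≤ A := by
    calc u.natAbs ≤ u.natAbs * g := Nat.le_mul_of_pos_right _ hg
      _ ≤ A := by rw [← hnat]; exact hA
  have h3 : F.card * u.natAbs ≤ 3 * A := by omega
  have hup : (0 : ℝ) < (u.natAbs : ℝ) := by exact_mod_cast Int.natAbs_pos.mpr hu0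
  have hgp : (0 : ℝ) < (g : ℝ) := by exact_mod_cast hg
  rw [hnat, Nat.cast_mul, le_div_iff₀ (mul_pos hup hgp)]
  have h3' : (F.card : ℝ) * (u.natAbs : ℝ) ≤ 3 * A := by exact_mod_cast h3
  nlinarith

/-- If `gcd h₁ h₂` does not divide `n` there are no solutions. -/
theorem count2_zero {A : ℕ} {h₁ h₂ n : ℤ} (h : ¬ ((Int.gcd h₁ h₂ : ℕ) : ℤ) ∣ n) :
    (bx A ×ˢ bx A).filter (fun z => h₁ * z.1 + h₂ * z.2 = n) = ∅ := by
  rw [filter_eq_empty_iff]
  rintro z - hz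
  apply h
  rw [← hz]
  exact dvd_add (dvd_mul_of_dvd_left (Int.gcd_dvd_left _ _) _)
    (dvd_mul_of_dvd_left (Int.gcd_dvd_right _ _) _)

theorem count1 {A B g : ℕ} (hg : 0 < g) (hgA : g ≤ A) :
    (((nz B ×ˢ bx A).filter (fun w => (g : ℤ) ∣ w.1 * w.2)).card : ℝ) ≤
      6 * A * B * (g.divisors.card : ℝ) / g := by
  have hsub : (nz B ×ˢ bx A).filter (fun w => (g : ℤ) ∣ w.1 * w.2) ⊆
      g.divisors.biUnion (fun e => (nz B).filter (fun h => (e : ℤ) ∣ h) ×ˢ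
        (bx A).filter (fun z => ((g / e : ℕ) : ℤ) ∣ z)) := by
    rintro ⟨h, z⟩ hw
    obtain ⟨hw1, hw2⟩ := mem_filter.mp hw
    obtain ⟨hh, hz⟩ := mem_product.mp hw1
    have hgd : 0 < Int.gcd (g : ℤ) h := Int.gcd_pos_of_ne_zero_left _ (by exact_mod_cast hg.ne')
    obtain ⟨u, v, huv, hu, hv⟩ := Int.exists_gcd_one hgd
    set e := Int.gcd (g : ℤ) h with he
    have heg : e ∣ g := by
      have := Int.gcd_dvd_left (g : ℤ) h
      exact_mod_cast this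
    rw [mem_biUnion]
    refine ⟨e, Nat.mem_divisors.mpr ⟨heg, hg.ne'⟩, ?_⟩
    rw [mem_product, mem_filter, mem_filter]
    refine ⟨⟨hh, Int.gcd_dvd_right _ _⟩, hz, ?_⟩
    have hez : (e : ℤ) ≠ 0 := by exact_mod_cast hgd.ne'
    have hdiv : ((g / e : ℕ) : ℤ) = u := by
      rw [Int.natCast_div, hu]
      exact Int.mul_ediv_cancel _ hez
    rw [hdiv]
    have hw3 : (g : ℤ) ∣ h * z := hw2
    rw [hu, hv] at hw3
    have hw4 : u ∣ v * z := by
      have : (e : ℤ) * u ∣ (e : ℤ) * (v * z) := by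
        convert hw3 using 1 <;> ring
      exact (mul_dvd_mul_iff_left hez).mp this
    exact (Int.isCoprime_iff_gcd_eq_one.mpr huv).dvd_of_dvd_mul_left hw4
  have h1 := (card_le_card hsub).trans card_biUnion_le
  have h2 : ∀ e ∈ g.divisors, (((nz B).filter (fun h => (e : ℤ) ∣ h) ×ˢ
        (bx A).filter (fun z => ((g / e : ℕ) : ℤ) ∣ z)).card : ℝ) ≤ 6 * A * B / g := by
    intro e he
    obtain ⟨heg, -⟩ := Nat.mem_divisors.mp he
    have he0 : 0 < e := Nat.pos_of_dvd_of_pos heg hg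
    obtain ⟨d, rfl⟩ := heg
    have hd0 : 0 < d := Nat.pos_of_mul_pos_left hg |> fun h => by
      rcases Nat.eq_zero_or_pos d with h0 | h0
      · rw [h0] at hg; simp at hg
      · exact h0
    have hdiv : e * d / e = d := Nat.mul_div_cancel_left d he0
    rw [hdiv, card_product, Nat.cast_mul]
    have e1 : (((nz B).filter (fun h => (e : ℤ) ∣ h)).card : ℝ) * e ≤ 2 * B := by
      exact_mod_cast card_mult_nz (B := B) he0
    have e2 : (((bx A).filter (fun z => (d : ℤ) ∣ z)).card : ℝ) * d ≤ 3 * A := by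
      exact_mod_cast card_mult_bx (A := A) hd0
        (le_trans (Nat.le_mul_of_pos_left d he0) hgA)
    have he0' : (0 : ℝ) < e := by exact_mod_cast he0
    have hd0' : (0 : ℝ) < d := by exact_mod_cast hd0
    rw [Nat.cast_mul, le_div_iff₀ (mul_pos he0' hd0')]
    calc (((nz B).filter (fun h => (e : ℤ) ∣ h)).card : ℝ) *
          (((bx A).filter (fun z => (d : ℤ) ∣ z)).card : ℝ) * (e * d) =
          ((((nz B).filter (fun h => (e : ℤ) ∣ h)).card : ℝ) * e) *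
          ((((bx A).filter (fun z => (d : ℤ) ∣ z)).card : ℝ) * d) := by ring
      _ ≤ (2 * B) * (3 * A) := mul_le_mul e1 e2 (by positivity) (by positivity)
      _ = 6 * A * B := by ring
  calc (((nz B ×ˢ bx A).filter (fun w => (g : ℤ) ∣ w.1 * w.2)).card : ℝ) ≤
      ((∑ e ∈ g.divisors, ((nz B).filter (fun h => (e : ℤ) ∣ h) ×ˢ
        (bx A).filter (fun z => ((g / e : ℕ) : ℤ) ∣ z)).card : ℕ) : ℝ) := by exact_mod_cast h1
    _ ≤ ∑ e ∈ g.divisors, 6 * (A : ℝ) * B / g := by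
        rw [Nat.cast_sum]; exact sum_le_sum h2
    _ = 6 * A * B * (g.divisors.card : ℝ) / g := by
        rw [sum_const, nsmul_eq_mul]; ring

theorem sum_inv_sq (B : ℕ) : ∑ e ∈ Icc 1 B, 1 / (e : ℝ) ^ 2 ≤ 2 := by
  have h : ∀ B : ℕ, ∑ e ∈ Icc 1 (B + 1), 1 / (e : ℝ) ^ 2 ≤ 2 - 1 / ((B : ℝ) + 1) := by
    intro B
    induction B with
    | zero => simp; norm_num
    | succ B ih =>
      rw [sum_Icc_succ_top (by omega)]
      have h1 : (0 : ℝ) < (B : ℝ) + 1 := by positivity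
      have h2 : (0 : ℝ) < (B : ℝ) + 2 := by positivity
      have h3 : 1 / ((B : ℝ) + 2) ^ 2 ≤ 1 / ((B : ℝ) + 1) - 1 / ((B : ℝ) + 2) := by
        rw [div_sub_div _ _ h1.ne' h2.ne', div_le_div_iff₀ (by positivity) (by positivity)]
        nlinarith
      push_cast
      have e1 : ((B : ℝ) + 1 + 1) = (B : ℝ) + 2 := by ring
      rw [e1]
      linarith
  rcases B with _ | B
  · simp
  · refine (h B).trans ?_
    have : (0 : ℝ) ≤ 1 / ((B : ℝ) + 1) := by positivity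
    linarith

theorem inner_tau {B : ℕ} {h₁ : ℤ} (h1 : h₁ ∈ nz B) :
    ∑ h₂ ∈ (nz B).filter (fun h₂ => h₂.natAbs ≤ h₁.natAbs),
      (((Int.gcd h₁ h₂).divisors.card : ℝ) / (h₁.natAbs : ℝ)) ≤
      ∑ e ∈ h₁.natAbs.divisors, 2 / (e : ℝ) := by
  obtain ⟨h10, -⟩ := mem_nz.mp h1
  have hpos : 0 < h₁.natAbs := Int.natAbs_pos.mpr h10
  have hposR : (0 : ℝ) < (h₁.natAbs : ℝ) := by exact_mod_cast hpos
  rw [← sum_div, div_le_iff₀ hposR, sum_mul]
  have e1 : ∀ h₂ ∈ (nz B).filter (fun h₂ => h₂.natAbs ≤ h₁.natAbs),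
      ((Int.gcd h₁ h₂).divisors.card : ℝ) =
        ∑ e ∈ h₁.natAbs.divisors, if (e : ℤ) ∣ h₂ then (1 : ℝ) else 0 := by
    intro h₂ _
    rw [sum_ite, sum_const_zero, add_zero, sum_const, nsmul_eq_mul, mul_one]
    congr 1
    have : (Int.gcd h₁ h₂).divisors = h₁.natAbs.divisors.filter (fun e : ℕ => (e : ℤ) ∣ h₂) := by
      ext e
      rw [Nat.mem_divisors, mem_filter, Nat.mem_divisors]
      constructor
      · rintro ⟨h3, -⟩
        refine ⟨⟨?_, hpos.ne'⟩, ?_⟩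
        · exact h3.trans (Nat.gcd_dvd_left _ _)
        · exact (Int.natCast_dvd_natCast.mpr h3).trans (Int.gcd_dvd_right _ _)
      · rintro ⟨⟨h3, -⟩, h4⟩
        exact ⟨Nat.dvd_gcd h3 (Int.natCast_dvd.mp h4), (Int.gcd_pos_of_ne_zero_left _ h10).ne'⟩
    rw [this]
  rw [sum_congr rfl e1, sum_comm]
  apply sum_le_sum
  intro e he
  obtain ⟨hed, -⟩ := Nat.mem_divisors.mp he
  have he0 : 0 < e := Nat.pos_of_dvd_of_pos hed hpos
  rw [sum_ite, sum_const_zero, add_zero, sum_const, nsmul_eq_mul, mul_one]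
  have h2 : ((((nz B).filter (fun h₂ => h₂.natAbs ≤ h₁.natAbs)).filter
      (fun h₂ => (e : ℤ) ∣ h₂)).card : ℝ) ≤
      (((nz h₁.natAbs).filter (fun h₂ => (e : ℤ) ∣ h₂)).card : ℝ) := by
    exact_mod_cast card_le_card (fun x hx => by
      rw [mem_filter, mem_filter, mem_nz] at hx
      rw [mem_filter, mem_nz]
      exact ⟨⟨hx.1.1.1, hx.1.2⟩, hx.2⟩)
  have h3 : (((nz h₁.natAbs).filter (fun h₂ => (e : ℤ) ∣ h₂)).card : ℝ) * e ≤
      2 * (h₁.natAbs : ℝ) := by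
    exact_mod_cast card_mult_nz (B := h₁.natAbs) he0
  have he0' : (0 : ℝ) < e := by exact_mod_cast he0
  refine h2.trans ?_
  rw [div_mul_eq_mul_div, le_div_iff₀ he0']
  exact h3

theorem outer_tau (B : ℕ) :
    ∑ h₁ ∈ nz B, ∑ e ∈ h₁.natAbs.divisors, 2 / (e : ℝ) ≤ 8 * B := by
  have e1 : ∀ h₁ ∈ nz B, ∑ e ∈ h₁.natAbs.divisors, 2 / (e : ℝ) =
      ∑ e ∈ Icc 1 B, if (e : ℤ) ∣ h₁ then 2 / (e : ℝ) else 0 := by
    intro h₁ h1
    obtain ⟨h10, h1B⟩ := mem_nz.mp h1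
    rw [← sum_filter]
    apply sum_congr _ (fun _ _ => rfl)
    ext e
    rw [Nat.mem_divisors, mem_filter, mem_Icc, Int.natCast_dvd]
    constructor
    · rintro ⟨h2, h3⟩
      have h4 := Nat.le_of_dvd (Nat.pos_of_ne_zero h3) h2
      exact ⟨⟨Nat.pos_of_dvd_of_pos h2 (Nat.pos_of_ne_zero h3), h4.trans h1B⟩, h2⟩
    · rintro ⟨-, h2⟩
      exact ⟨h2, (Int.natAbs_pos.mpr h10).ne'⟩
  rw [sum_congr rfl e1, sum_comm]
  calc ∑ e ∈ Icc 1 B, ∑ h₁ ∈ nz B, (if (e : ℤ) ∣ h₁ then 2 / (e : ℝ) else 0) ≤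
      ∑ e ∈ Icc 1 B, 4 * (B : ℝ) * (1 / (e : ℝ) ^ 2) := by
        apply sum_le_sum
        intro e he
        have he0 : 0 < e := (mem_Icc.mp he).1
        have he0' : (0 : ℝ) < e := by exact_mod_cast he0
        rw [← sum_filter, sum_const, nsmul_eq_mul]
        have h3 : (((nz B).filter (fun h₂ => (e : ℤ) ∣ h₂)).card : ℝ) * e ≤ 2 * (B : ℝ) := by
          exact_mod_cast card_mult_nz (B := B) he0
        rw [mul_div_assoc', mul_one_div, div_le_div_iff₀ he0' (by positivity)]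
        nlinarith
    _ = 4 * B * ∑ e ∈ Icc 1 B, 1 / (e : ℝ) ^ 2 := by rw [mul_sum]
    _ ≤ 4 * B * 2 := by
        apply mul_le_mul_of_nonneg_left (sum_inv_sq B) (by positivity)
    _ = 8 * B := by ring

theorem half_tau (B : ℕ) :
    ∑ h₁ ∈ nz B, ∑ h₂ ∈ (nz B).filter (fun h₂ => h₂.natAbs ≤ h₁.natAbs),
      (((Int.gcd h₁ h₂).divisors.card : ℝ) / (h₁.natAbs : ℝ)) ≤ 8 * B :=
  (sum_le_sum fun _ h1 => inner_tau h1).trans (outer_tau B)

/-- The solutions of `h₁ z₁ + h₂ z₂ + h₃ z₃ = 0`. -/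
noncomputable def tri (A B : ℕ) : Finset ((ℤ × ℤ) × (ℤ × ℤ) × (ℤ × ℤ)) :=
  ((nz B ×ˢ bx A) ×ˢ (nz B ×ˢ bx A) ×ˢ (nz B ×ˢ bx A)).filter
    (fun w => w.1.1 * w.1.2 + w.2.1.1 * w.2.1.2 + w.2.2.1 * w.2.2.2 = 0)

theorem count2_swap {A : ℕ} (h₁ h₂ n : ℤ) :
    ((bx A ×ˢ bx A).filter (fun z => h₁ * z.1 + h₂ * z.2 = n)).card =
      ((bx A ×ˢ bx A).filter (fun z => h₂ * z.1 + h₁ * z.2 = n)).card := by
  apply card_bij (fun z _ => z.swap)
  · rintro ⟨a, b⟩ hz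
    rw [mem_filter, mem_product] at hz ⊢
    exact ⟨⟨hz.1.2, hz.1.1⟩, by simpa [add_comm] using hz.2⟩
  · rintro a _ b _ h; exact Prod.swap_injective h
  · rintro ⟨a, b⟩ hz
    rw [mem_filter, mem_product] at hz
    refine ⟨(b, a), ?_, rfl⟩
    rw [mem_filter, mem_product]
    exact ⟨⟨hz.1.2, hz.1.1⟩, by simpa [add_comm] using hz.2⟩

theorem tri_le_sum (A B : ℕ) : (tri A B).card ≤
    ∑ h₁ ∈ nz B, ∑ h₂ ∈ nz B, ∑ w ∈ nz B ×ˢ bx A,
      ((bx A ×ˢ bx A).filter (fun z => h₁ * z.1 + h₂ * z.2 = -(w.1 * w.2))).card := by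
  have h1 := card_eq_sum_card_fiberwise (s := tri A B) (t := nz B ×ˢ nz B ×ˢ (nz B ×ˢ bx A))
    (f := fun w => (w.1.1, w.2.1.1, w.2.2)) (by
      rintro ⟨⟨a, b⟩, ⟨c, d⟩, ⟨e, f⟩⟩ hw
      rw [mem_coe, tri, mem_filter, mem_product, mem_product, mem_product, mem_product] at hw
      rw [mem_coe, mem_product, mem_product]
      exact ⟨hw.1.1.1, hw.1.2.1.1, hw.1.2.2⟩)
  rw [h1, sum_product]
  apply sum_le_sum
  intro h₁ _
  rw [sum_product]
  apply sum_le_sum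
  intro h₂ _
  apply sum_le_sum
  rintro ⟨h₃, z₃⟩ _
  apply card_le_card_of_injOn (fun w => (w.1.2, w.2.1.2))
  · rintro ⟨⟨a, b⟩, ⟨c, d⟩, ⟨e, f⟩⟩ hw
    rw [mem_coe, mem_filter, tri, mem_filter, mem_product, mem_product, mem_product,
      mem_product] at hw
    obtain ⟨⟨⟨⟨_, h3⟩, ⟨_, h4⟩, _⟩, h5⟩, h6⟩ := hw
    simp only [Prod.mk.injEq] at h6 h5 h3 h4
    obtain ⟨rfl, rfl, rfl, rfl⟩ := h6
    rw [mem_coe, mem_filter, mem_product]
    exact ⟨⟨h3, h4⟩, by simp only; linarith⟩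
  · rintro ⟨⟨a, b⟩, ⟨c, d⟩, ⟨e, f⟩⟩ hw ⟨⟨a', b'⟩, ⟨c', d'⟩, ⟨e', f'⟩⟩ hw' h
    rw [mem_coe, mem_filter] at hw hw'
    have h6 := hw.2
    have h7 := hw'.2
    simp only [Prod.mk.injEq] at h6 h7 h
    obtain ⟨rfl, rfl, rfl, rfl⟩ := h6
    obtain ⟨rfl, rfl, rfl, rfl⟩ := h7
    obtain ⟨rfl, rfl⟩ := h
    rfl

theorem tri_pair {A B : ℕ} (hBA : B ≤ A) {h₁ h₂ : ℤ} (h1 : h₁ ∈ nz B) (h2 : h₂ ∈ nz B) :
    (∑ w ∈ nz B ×ˢ bx A,
      (((bx A ×ˢ bx A).filter (fun z => h₁ * z.1 + h₂ * z.2 = -(w.1 * w.2))).card : ℝ)) ≤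
    18 * A ^ 2 * B * ((if h₂.natAbs ≤ h₁.natAbs then
        ((Int.gcd h₁ h₂).divisors.card : ℝ) / (h₁.natAbs : ℝ) else 0) +
      (if h₁.natAbs ≤ h₂.natAbs then
        ((Int.gcd h₂ h₁).divisors.card : ℝ) / (h₂.natAbs : ℝ) else 0)) := by
  obtain ⟨h10, h1B⟩ := mem_nz.mp h1
  obtain ⟨h20, h2B⟩ := mem_nz.mp h2
  set g := Int.gcd h₁ h₂ with hg
  have hgpos : 0 < g := Int.gcd_pos_of_ne_zero_left _ h10
  have hgA : g ≤ A := by
    have : g ∣ h₁.natAbs := Nat.gcd_dvd_left _ _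
    exact (Nat.le_of_dvd (Int.natAbs_pos.mpr h10) this).trans (h1B.trans hBA)
  have hsym : Int.gcd h₂ h₁ = g := Int.gcd_comm _ _
  have hgR : (0 : ℝ) < g := by exact_mod_cast hgpos
  have key : ∀ M : ℝ, 0 < M → (∀ n : ℤ,
      (((bx A ×ˢ bx A).filter (fun z => h₁ * z.1 + h₂ * z.2 = n)).card : ℝ) ≤ 3 * A * g / M) →
      (∑ w ∈ nz B ×ˢ bx A,
        (((bx A ×ˢ bx A).filter (fun z => h₁ * z.1 + h₂ * z.2 = -(w.1 * w.2))).card : ℝ)) ≤
      18 * A ^ 2 * B * ((g.divisors.card : ℝ) / M) := by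
    intro M hM hn
    have e1 : ∀ w ∈ nz B ×ˢ bx A,
        (((bx A ×ˢ bx A).filter (fun z => h₁ * z.1 + h₂ * z.2 = -(w.1 * w.2))).card : ℝ) ≤
        if (g : ℤ) ∣ w.1 * w.2 then 3 * A * g / M else 0 := by
      intro w _
      split_ifs with hd
      · exact hn _
      · rw [count2_zero (fun h => hd (by rw [← Int.dvd_neg]; exact h))]
        simp
    refine (sum_le_sum e1).trans ?_
    rw [← sum_filter, sum_const, nsmul_eq_mul]
    have e2 := count1 (B := B) hgpos hgA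
    calc _ ≤ (6 * A * B * (g.divisors.card : ℝ) / g) * (3 * A * g / M) :=
          mul_le_mul_of_nonneg_right e2 (by positivity)
      _ = 18 * A ^ 2 * B * ((g.divisors.card : ℝ) / M) := by
          field_simp; ring
  have hnn1 : (0 : ℝ) ≤ (g.divisors.card : ℝ) / (h₁.natAbs : ℝ) := by positivity
  have hnn2 : (0 : ℝ) ≤ (g.divisors.card : ℝ) / (h₂.natAbs : ℝ) := by positivity
  rw [hsym]
  by_cases hle : h₂.natAbs ≤ h₁.natAbs
  · rw [if_pos hle]
    refine (key (h₁.natAbs) (by exact_mod_cast Int.natAbs_pos.mpr h10)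
      (fun n => count2 h10 (h1B.trans hBA))).trans ?_
    apply mul_le_mul_of_nonneg_left _ (by positivity)
    split_ifs <;> linarith
  · rw [if_neg hle, if_pos (by omega), zero_add]
    refine key (h₂.natAbs) (by exact_mod_cast Int.natAbs_pos.mpr h20) (fun n => ?_)
    rw [count2_swap]
    have := count2 (A := A) (h₂ := h₁) (n := n) h20 (h2B.trans hBA)
    rwa [hsym] at this

/-- The equation `h₁ z₁ + h₂ z₂ + h₃ z₃ = 0` has at most `288 (A B)²` solutions with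
`1 ≤ |h_i| ≤ B ≤ A`, `|z_i| ≤ A`. -/
theorem bilin {A B : ℕ} (hBA : B ≤ A) : ((tri A B).card : ℝ) ≤ 288 * ((A : ℝ) * B) ^ 2 := by
  have h1 : ((tri A B).card : ℝ) ≤ ∑ h₁ ∈ nz B, ∑ h₂ ∈ nz B, ∑ w ∈ nz B ×ˢ bx A,
      (((bx A ×ˢ bx A).filter (fun z => h₁ * z.1 + h₂ * z.2 = -(w.1 * w.2))).card : ℝ) := by
    exact_mod_cast tri_le_sum A B
  have h2 : ∑ h₁ ∈ nz B, ∑ h₂ ∈ nz B, (if h₂.natAbs ≤ h₁.natAbs then
      ((Int.gcd h₁ h₂).divisors.card : ℝ) / (h₁.natAbs : ℝ) else 0) ≤ 8 * B := by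
    have := half_tau B
    simp only [sum_filter] at this
    exact this
  have h3 : ∑ h₁ ∈ nz B, ∑ h₂ ∈ nz B, (if h₁.natAbs ≤ h₂.natAbs then
      ((Int.gcd h₂ h₁).divisors.card : ℝ) / (h₂.natAbs : ℝ) else 0) ≤ 8 * B := by
    rw [sum_comm]
    exact h2
  calc ((tri A B).card : ℝ) ≤ _ := h1
    _ ≤ ∑ h₁ ∈ nz B, ∑ h₂ ∈ nz B, 18 * (A : ℝ) ^ 2 * B * ((if h₂.natAbs ≤ h₁.natAbs then
        ((Int.gcd h₁ h₂).divisors.card : ℝ) / (h₁.natAbs : ℝ) else 0) +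
      (if h₁.natAbs ≤ h₂.natAbs then
        ((Int.gcd h₂ h₁).divisors.card : ℝ) / (h₂.natAbs : ℝ) else 0)) :=
        sum_le_sum fun h₁ h1 => sum_le_sum fun h₂ h2 => tri_pair hBA h1 h2
    _ = 18 * (A : ℝ) ^ 2 * B * (∑ h₁ ∈ nz B, ∑ h₂ ∈ nz B, (if h₂.natAbs ≤ h₁.natAbs then
        ((Int.gcd h₁ h₂).divisors.card : ℝ) / (h₁.natAbs : ℝ) else 0) +
        ∑ h₁ ∈ nz B, ∑ h₂ ∈ nz B, (if h₁.natAbs ≤ h₂.natAbs then
        ((Int.gcd h₂ h₁).divisors.card : ℝ) / (h₂.natAbs : ℝ) else 0)) := by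
        simp only [mul_add, sum_add_distrib, mul_sum]
    _ ≤ 18 * (A : ℝ) ^ 2 * B * (8 * B + 8 * B) := by
        apply mul_le_mul_of_nonneg_left (add_le_add h2 h3) (by positivity)
    _ = 288 * ((A : ℝ) * B) ^ 2 := by ring

end Pool.Agent.Helper83.LB
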