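import Pool.Agent.Helper83.LB.Bilin

/-!
# LB: moments of exponential sums and numbers of solutions
-/

namespace Pool.Agent.Helper83.LB

open Finset

/-- Pairs of `k`-tuples of elements of `I`. -/
noncomputable def JJ (k : ℕ) (I : Finset ℤ) : Finset ((Fin k → ℤ) × (Fin k → ℤ)) :=
  Fintype.piFinset (fun _ => I) ×ˢ Fintype.piFinset (fun _ => I)

/-- `f(x₁) + ... + f(x_k) - f(y₁) - ... - f(y_k)`. -/
def vv {k : ℕ} (f : ℤ → ℤ) (p : (Fin k → ℤ) × (Fin k → ℤ)) : ℤ := ∑ i, f (p.1 i) - ∑ i, f (p.2 i)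

/-- The number of solutions of `f(x₁) + ... + f(x_k) - f(y₁) - ... - f(y_k) = z` in `I`. -/
noncomputable def cnt (k : ℕ) (I : Finset ℤ) (f : ℤ → ℤ) (z : ℤ) : ℕ :=
  ((JJ k I).filter (fun p => vv f p = z)).card

section char

variable {q : ℕ} [NeZero q]

/-- `exp(2 π i a n / q)`. -/
noncomputable def ee (a : ZMod q) (n : ℤ) : ℂ := ZMod.stdAddChar (a * (n : ZMod q))

theorem ee_add (a : ZMod q) (m n : ℤ) : ee a (m + n) = ee a m * ee a n := by
  rw [ee, ee, ee, Int.cast_add, mul_add, AddChar.map_add_eq_mul]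

theorem ee_zero (a : ZMod q) : ee a 0 = 1 := by
  rw [ee, Int.cast_zero, mul_zero, AddChar.map_zero_eq_one]

theorem norm_ee (a : ZMod q) (n : ℤ) : ‖ee a n‖ = 1 := by
  rw [ee]; exact AddChar.norm_apply _ _

theorem conj_ee (a : ZMod q) (n : ℤ) : (starRingEnd ℂ) (ee a n) = ee a (-n) := by
  rw [ee, ee, Int.cast_neg, mul_neg, AddChar.map_neg_eq_conj]

theorem ee_sum (a : ZMod q) {k : ℕ} (v : Fin k → ℤ) : ee a (∑ i, v i) = ∏ i, ee a (v i) := by
  induction k with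
  | zero => simp [ee_zero]
  | succ k ih => rw [Fin.sum_univ_succ, Fin.prod_univ_succ, ee_add, ih]

theorem sum_ee (n : ℤ) : ∑ a : ZMod q, ee a n = if (q : ℤ) ∣ n then (q : ℂ) else 0 := by
  have h := AddChar.sum_mulShift (R := ZMod q) (ψ := ZMod.stdAddChar) (n : ZMod q)
    (ZMod.isPrimitive_stdAddChar q)
  simp only [ee]
  rw [h, ZMod.card]
  have h2 : ((n : ZMod q) = 0) ↔ (q : ℤ) ∣ n := ZMod.intCast_zmod_eq_zero_iff_dvd n q
  by_cases h3 : (q : ℤ) ∣ n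
  · rw [if_pos h3, if_pos (h2.mpr h3)]
  · rw [if_neg h3, if_neg (fun h => h3 (h2.mp h))]; simp

theorem mean_ee {Ω : Type*} (s : Finset Ω) (w : Ω → ℤ) :
    ∑ a : ZMod q, ∑ x ∈ s, ee a (w x) = (q : ℂ) * ((s.filter (fun x => (q : ℤ) ∣ w x)).card : ℂ) := by
  rw [sum_comm]
  simp only [sum_ee]
  rw [← sum_filter, sum_const, nsmul_eq_mul, mul_comm]

/-- The exponential sum. -/
noncomputable def SS (I : Finset ℤ) (f : ℤ → ℤ) (a : ZMod q) : ℂ := ∑ x ∈ I, ee a (f x)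

theorem SS_pow (k : ℕ) (I : Finset ℤ) (f : ℤ → ℤ) (a : ZMod q) :
    SS I f a ^ k = ∑ x ∈ Fintype.piFinset (fun _ : Fin k => I), ee a (∑ i, f (x i)) := by
  have h1 : SS I f a ^ k = ∏ _i : Fin k, ∑ x ∈ I, ee a (f x) := by
    rw [prod_const, card_univ, Fintype.card_fin]; rfl
  rw [h1, prod_univ_sum]
  apply sum_congr rfl
  intro x _
  rw [ee_sum]

theorem SS_norm_pow (k : ℕ) (I : Finset ℤ) (f : ℤ → ℤ) (a : ZMod q) :
    ((‖SS I f a‖ ^ (2 * k) : ℝ) : ℂ) = ∑ p ∈ JJ k I, ee a (vv f p) := by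
  have h1 : ((‖SS I f a‖ ^ (2 * k) : ℝ) : ℂ) = SS I f a ^ k * (starRingEnd ℂ) (SS I f a ^ k) := by
    rw [Complex.mul_conj, Complex.normSq_eq_norm_sq, norm_pow]
    push_cast
    ring_nf
  rw [h1, SS_pow, map_sum, sum_mul_sum, JJ, sum_product]
  apply sum_congr rfl
  intro x _
  apply sum_congr rfl
  intro y _
  rw [conj_ee, ← ee_add, vv, sub_eq_add_neg]

end char

theorem dvd_small {q : ℕ} {n : ℤ} (h : n.natAbs < q) : (q : ℤ) ∣ n ↔ n = 0 := by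
  constructor
  · intro h1
    exact Int.eq_zero_of_abs_lt_dvd h1 (by rw [Int.abs_eq_natAbs]; exact_mod_cast h)
  · rintro rfl; exact dvd_zero _

theorem exists_bound {Ω : Type*} (s : Finset Ω) (w : Ω → ℤ) : ∃ Q : ℕ, ∀ x ∈ s, (w x).natAbs < Q :=
  ⟨s.sup (fun x => (w x).natAbs) + 1, fun x hx => Nat.lt_succ_of_le
    (Finset.le_sup (f := fun x => (w x).natAbs) hx)⟩

theorem cnt_le (k : ℕ) (I : Finset ℤ) (f : ℤ → ℤ) (z : ℤ) : cnt k I f z ≤ cnt k I f 0 := by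
  obtain ⟨Q₁, hQ₁⟩ := exists_bound (JJ k I) (vv f)
  obtain ⟨Q₂, hQ₂⟩ := exists_bound (JJ k I) (fun p => vv f p - z)
  set q := Q₁ + Q₂ + 1 with hq
  have : NeZero q := ⟨by omega⟩
  have h0 : (q : ℂ) * (cnt k I f 0 : ℂ) = ∑ a : ZMod q, ((‖SS I f a‖ ^ (2 * k) : ℝ) : ℂ) := by
    simp only [SS_norm_pow]
    rw [mean_ee, cnt]
    congr 3
    apply filter_congr
    intro p hp
    exact (dvd_small (by have := hQ₁ p hp; omega)).symm
  have hz : (q : ℂ) * (cnt k I f z : ℂ) =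
      ∑ a : ZMod q, ((‖SS I f a‖ ^ (2 * k) : ℝ) : ℂ) * ee a (-z) := by
    simp only [SS_norm_pow, sum_mul, ← ee_add]
    rw [mean_ee, cnt]
    congr 3
    apply filter_congr
    intro p hp
    rw [← sub_eq_add_neg, dvd_small (by have := hQ₂ p hp; omega), sub_eq_zero]
  have hqpos : (0 : ℝ) < q := by positivity
  have h1 : (q : ℝ) * (cnt k I f z : ℝ) ≤ (q : ℝ) * (cnt k I f 0 : ℝ) := by
    have e1 : (q : ℝ) * (cnt k I f z : ℝ) = ‖(q : ℂ) * (cnt k I f z : ℂ)‖ := by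
      rw [norm_mul, Complex.norm_natCast, Complex.norm_natCast]
    have e2 : (q : ℝ) * (cnt k I f 0 : ℝ) = ∑ a : ZMod q, ‖SS I f a‖ ^ (2 * k) := by
      have : ((((q : ℝ) * (cnt k I f 0 : ℝ) : ℝ)) : ℂ) = ((∑ a : ZMod q, ‖SS I f a‖ ^ (2 * k) : ℝ) : ℂ) := by
        push_cast
        push_cast at h0
        exact h0
      exact_mod_cast this
    rw [e1, e2, hz]
    refine (norm_sum_le _ _).trans (sum_le_sum fun a _ => ?_)
    rw [norm_mul, norm_ee, mul_one, Complex.norm_real, Real.norm_of_nonneg (by positivity)]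
  have h2 := le_of_mul_le_mul_left h1 hqpos
  exact_mod_cast h2

theorem cnt_mono {k : ℕ} {I I' : Finset ℤ} (h : I ⊆ I') (f : ℤ → ℤ) (z : ℤ) :
    cnt k I f z ≤ cnt k I' f z := by
  apply card_le_card
  intro p hp
  rw [mem_filter, JJ, mem_product, Fintype.mem_piFinset, Fintype.mem_piFinset] at hp ⊢
  exact ⟨⟨fun i => h (hp.1.1 i), fun i => h (hp.1.2 i)⟩, hp.2⟩

end Pool.Agent.Helper83.LB
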