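import Pool.Agent.Helper83.LB.Main

/-!
# LB: the number of solutions of a symmetric additive equation in the values of a polynomial

`linnik`: for an integer polynomial `P` of positive degree `D` there are `r` and `A` such that for all `M ≥ 1`
the number of solutions of `P(x₁) + ... + P(x_r) = P(y₁) + ... + P(y_r)` in `1 ≤ x_i, y_i ≤ M` is at most
`A M^(2 r - D)`.
-/

namespace Pool.Agent.Helper83.LB

open Finset

theorem ev_coeff (P : Polynomial ℤ) (y : ℤ) : ev P.coeff P.natDegree y = P.eval y :=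
  (Polynomial.eval_eq_sum_range y).symm

theorem linnik (P : Polynomial ℤ) (hP : 1 ≤ P.natDegree) : ∃ r A : ℕ, 1 ≤ r ∧ ∀ M : ℕ, 1 ≤ M →
    (((Fintype.piFinset fun _ : Fin r => Icc 1 M) ×ˢ
      (Fintype.piFinset fun _ : Fin r => Icc 1 M)).filter
        fun u => ∑ i, P.eval ((u.1 i : ℕ) : ℤ) = ∑ i, P.eval ((u.2 i : ℕ) : ℤ)).card *
      M ^ P.natDegree ≤ A * M ^ (2 * r) := by
  obtain ⟨n, hn⟩ : ∃ n, P.natDegree = n + 1 := ⟨P.natDegree - 1, by omega⟩
  set c := ∑ j ∈ range (P.natDegree + 1), (P.coeff j).natAbs with hc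
  obtain ⟨C, hC⟩ := main n c
  refine ⟨6 ^ n, C, Nat.one_le_pow _ _ (by norm_num), ?_⟩
  intro M hM
  have hBd : Bd c (n + 1) M P.coeff := by
    constructor
    · rw [← hn]
      have h0 : P ≠ 0 := by
        rintro rfl
        simp at hP
      exact Polynomial.leadingCoeff_ne_zero.mpr h0
    · intro j hj
      have h1 : (P.coeff j).natAbs ≤ c :=
        single_le_sum (f := fun j => (P.coeff j).natAbs) (fun _ _ => Nat.zero_le _)
          (mem_range.mpr (by omega))
      calc (P.coeff j).natAbs ≤ c * 1 := by omega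
        _ ≤ c * M ^ (n + 1 - j) := Nat.mul_le_mul_left _ (Nat.one_le_pow _ _ hM)
  have h1 := hC M hM (bx M) (Subset.refl _) _ hBd 0
  have hev : ∀ y, ev P.coeff (n + 1) y = P.eval y := fun y => by rw [← hn]; exact ev_coeff P y
  have h2 : (((Fintype.piFinset fun _ : Fin (6 ^ n) => Icc 1 M) ×ˢ
      (Fintype.piFinset fun _ : Fin (6 ^ n) => Icc 1 M)).filter
        fun u => ∑ i, P.eval ((u.1 i : ℕ) : ℤ) = ∑ i, P.eval ((u.2 i : ℕ) : ℤ)).card ≤
      cnt (6 ^ n) (bx M) (ev P.coeff (n + 1)) 0 := by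
    apply card_le_card_of_injOn
      (fun u => ((fun i => ((u.1 i : ℕ) : ℤ)), (fun i => ((u.2 i : ℕ) : ℤ))))
    · intro u hu
      rw [mem_coe, mem_filter, mem_product, Fintype.mem_piFinset, Fintype.mem_piFinset] at hu
      rw [mem_coe, mem_filter, JJ, mem_product, Fintype.mem_piFinset, Fintype.mem_piFinset]
      refine ⟨⟨fun i => mem_bx.mpr ?_, fun i => mem_bx.mpr ?_⟩, ?_⟩
      · rw [Int.natAbs_natCast]; exact (mem_Icc.mp (hu.1.1 i)).2
      · rw [Int.natAbs_natCast]; exact (mem_Icc.mp (hu.1.2 i)).2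
      · rw [vv, sub_eq_zero]
        simp only [hev]
        exact hu.2
    · intro u _ u' _ he
      have e1 := congrArg Prod.fst he
      have e2 := congrArg Prod.snd he
      refine Prod.ext ?_ ?_
      · funext i
        exact Nat.cast_injective (congrFun e1 i)
      · funext i
        exact Nat.cast_injective (congrFun e2 i)
  have hle : n + 1 ≤ 2 * 6 ^ n := by have := lt_six_pow n; omega
  rw [hn]
  calc _ ≤ (C * M ^ (2 * 6 ^ n - (n + 1))) * M ^ (n + 1) :=
        Nat.mul_le_mul_right _ (h2.trans h1)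
    _ = C * M ^ (2 * 6 ^ n) := by
        rw [mul_assoc, ← pow_add, Nat.sub_add_cancel hle]

end Pool.Agent.Helper83.LB
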