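import Pool.Agent.Helper83.LB.Poly

/-!
# LB: the number of solutions of a symmetric additive equation in the values of a polynomial

`linnik`: for an integer polynomial `P` of positive degree `D` there are `r` and `A` such that for all `M ≥ 1`
the number of solutions of `P(x₁) + ... + P(x_r) = P(y₁) + ... + P(y_r)` in `1 ≤ x_i, y_i ≤ M` is at most
`A M^(2 r - D)` (Linnik's form of Hua's inequality without logarithms).
-/

namespace Pool.Agent.Helper83.LB

open Finset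

theorem card_bx (N : ℕ) : (bx N).card = 2 * N + 1 := by
  rw [bx, Int.card_Icc]
  omega

theorem base {c N : ℕ} (hN : 1 ≤ N) {I : Finset ℤ} (hI : I ⊆ bx N) {a : ℕ → ℤ}
    (ha : Bd c 1 N a) (z : ℤ) : cnt 1 I (ev a 1) z ≤ 3 * N ^ (2 * 6 ^ 0 - 1) := by
  have hinj : Function.Injective (ev a 1) := by
    intro y y' h
    simp only [ev, sum_range_succ, range_zero, sum_empty, pow_zero, pow_one, zero_add] at h
    have h1 : a 1 * y = a 1 * y' := by linarith
    exact mul_left_cancel₀ ha.1 h1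
  have h1 : cnt 1 I (ev a 1) z ≤ I.card := by
    apply card_le_card_of_injOn (fun p => p.1 0)
    · intro p hp
      rw [mem_coe, mem_filter, JJ, mem_product, Fintype.mem_piFinset] at hp
      exact hp.1.1 0
    · intro p hp p' hp' he
      rw [mem_coe, mem_filter] at hp hp'
      have e1 := hp.2
      have e2 := hp'.2
      simp only [vv, univ_unique, Fin.default_eq_zero, Fin.isValue, sum_singleton] at e1 e2
      have e3 : p.1 0 = p'.1 0 := he
      have e4 : p.2 0 = p'.2 0 := hinj (by rw [e3] at e1; linarith)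
      refine Prod.ext ?_ ?_
      · funext i; rw [Subsingleton.elim i 0]; exact e3
      · funext i; rw [Subsingleton.elim i 0]; exact e4
  have h2 := card_le_card hI
  rw [card_bx] at h2
  have h3 : (2 * 6 ^ 0 - 1) = 1 := by norm_num
  rw [h3, pow_one]
  omega

theorem lt_six_pow (n : ℕ) : n + 1 ≤ 6 ^ n := by
  induction n with
  | zero => norm_num
  | succ n ih => rw [pow_succ]; omega

/-- The bound for the numbers of solutions, uniformly in the coefficients. -/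
theorem main (n : ℕ) : ∀ c : ℕ, ∃ C : ℕ, ∀ N : ℕ, 1 ≤ N → ∀ I : Finset ℤ, I ⊆ bx N →
    ∀ a : ℕ → ℤ, Bd c (n + 1) N a → ∀ z : ℤ,
      cnt (6 ^ n) I (ev a (n + 1)) z ≤ C * N ^ (2 * 6 ^ n - (n + 1)) := by
  induction n with
  | zero =>
    intro c
    exact ⟨3, fun N hN I hI a ha z => base hN hI ha z⟩
  | succ n ih =>
    intro c
    set c' := (n + 1 + 2) * c * 4 ^ (n + 1 + 1) with hc'
    obtain ⟨C, hC⟩ := ih c'
    set m := 6 ^ n with hm
    have hm0 : 0 < m := by positivity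
    have hmn : n + 1 ≤ m := lt_six_pow n
    set A1 := 2 * m * ((n + 1 + 1) * c') + 2 with hA1
    refine ⟨⌈(2 : ℝ) ^ (6 * m) * (3 ^ (6 * m) + 4 ^ (3 * (2 * m - 1)) * ((C : ℝ) ^ 3 *
      (288 * (2 * (A1 : ℝ)) ^ 2)))⌉₊, ?_⟩
    intro N hN I hI a ha z
    refine (cnt_le _ _ _ _).trans ?_
    have hφ : ∀ h y, ev a (n + 1 + 1) (y + h) - ev a (n + 1 + 1) y =
        h * (fun h y => ev (da a (n + 1) h) (n + 1) y) h y := fun h y => ev_diff a (n + 1) h y
    have hNp : N ≤ N ^ (n + 1) := by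
      calc N = N ^ 1 := (pow_one N).symm
        _ ≤ N ^ (n + 1) := Nat.pow_le_pow_right hN (by omega)
    have hNA : 2 * N ≤ A1 * N ^ (n + 1) := Nat.mul_le_mul (by omega) hNp
    have hda : ∀ h ∈ nz (2 * N), Bd c' (n + 1) N (da a (n + 1) h) :=
      fun h hh => da_bd ha (mem_nz.mp hh).2
    have hA : ∀ h ∈ nz (2 * N), ∀ p ∈ JJ m (IH I h),
        vv ((fun h y => ev (da a (n + 1) h) (n + 1) y) h) p ∈ bx (A1 * N ^ (n + 1)) := by
      intro h hh p hp
      rw [JJ, mem_product, Fintype.mem_piFinset, Fintype.mem_piFinset] at hp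
      have hy : ∀ y ∈ IH I h, (ev (da a (n + 1) h) (n + 1) y).natAbs ≤
          (n + 1 + 1) * c' * N ^ (n + 1) :=
        fun y hy => ev_bound (hda h hh) (mem_bx.mp (hI (IH_sub I h hy)))
      rw [mem_bx, vv]
      have e1 : (∑ i, ev (da a (n + 1) h) (n + 1) (p.1 i)).natAbs ≤
          m * ((n + 1 + 1) * c' * N ^ (n + 1)) := by
        refine (Int.natAbs_sum_le _ _).trans ?_
        refine (sum_le_sum fun i _ => hy _ (hp.1 i)).trans (le_of_eq ?_)
        rw [sum_const, card_univ, Fintype.card_fin, smul_eq_mul]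
      have e2 : (∑ i, ev (da a (n + 1) h) (n + 1) (p.2 i)).natAbs ≤
          m * ((n + 1 + 1) * c' * N ^ (n + 1)) := by
        refine (Int.natAbs_sum_le _ _).trans ?_
        refine (sum_le_sum fun i _ => hy _ (hp.2 i)).trans (le_of_eq ?_)
        rw [sum_const, card_univ, Fintype.card_fin, smul_eq_mul]
      refine (Int.natAbs_sub_le _ _).trans ((Nat.add_le_add e1 e2).trans ?_)
      calc m * ((n + 1 + 1) * c' * N ^ (n + 1)) + m * ((n + 1 + 1) * c' * N ^ (n + 1))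
          = (2 * m * ((n + 1 + 1) * c')) * N ^ (n + 1) := by ring
        _ ≤ A1 * N ^ (n + 1) := Nat.mul_le_mul_right _ (by omega)
    have hB : ∀ h ∈ nz (2 * N), ∀ z, cnt m (IH I h)
        ((fun h y => ev (da a (n + 1) h) (n + 1) y) h) z ≤ C * N ^ (2 * m - (n + 1)) :=
      fun h hh z => hC N hN _ ((IH_sub I h).trans hI) _ (hda h hh) z
    have hst := step hm0 hI hφ hNA hA hB
    have hN1 : (1 : ℝ) ≤ N := by exact_mod_cast hN
    have hI3 : (I.card : ℝ) ≤ 3 * N := by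
      have h2 := card_le_card hI
      rw [card_bx] at h2
      have : I.card ≤ 3 * N := by omega
      exact_mod_cast this
    have e6 : 6 ^ (n + 1) = 6 * m := by rw [pow_succ, hm]; ring
    rw [e6]
    have t1 : (I.card : ℝ) ^ (6 * m) ≤ 3 ^ (6 * m) * (N : ℝ) ^ (2 * (6 * m) - (n + 1 + 1)) := by
      calc (I.card : ℝ) ^ (6 * m) ≤ (3 * (N : ℝ)) ^ (6 * m) :=
            pow_le_pow_left₀ (by positivity) hI3 _
        _ = 3 ^ (6 * m) * (N : ℝ) ^ (6 * m) := by rw [mul_pow]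
        _ ≤ _ := by
            apply mul_le_mul_of_nonneg_left _ (by positivity)
            exact pow_le_pow_right₀ hN1 (by omega)
    have t2 : (4 * (N : ℝ)) ^ (3 * (2 * m - 1)) * ((((C * N ^ (2 * m - (n + 1)) : ℕ)) : ℝ) ^ 3 *
        (288 * ((((A1 * N ^ (n + 1) : ℕ)) : ℝ) * (2 * N)) ^ 2)) =
        4 ^ (3 * (2 * m - 1)) * ((C : ℝ) ^ 3 * (288 * (2 * (A1 : ℝ)) ^ 2)) *
          (N : ℝ) ^ (2 * (6 * m) - (n + 1 + 1)) := by
      push_cast
      have e : (N : ℝ) ^ (2 * (6 * m) - (n + 1 + 1)) = (N : ℝ) ^ (3 * (2 * m - 1)) *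
          ((N : ℝ) ^ (2 * m - (n + 1))) ^ 3 * ((N : ℝ) ^ (n + 1)) ^ 2 * (N : ℝ) ^ 2 := by
        rw [← pow_mul, ← pow_mul, ← pow_add, ← pow_add, ← pow_add]
        congr 1
        omega
      rw [e, mul_pow 4 (N : ℝ)]
      ring
    have hfin : (cnt (6 * m) I (ev a (n + 1 + 1)) 0 : ℝ) ≤
        ((2 : ℝ) ^ (6 * m) * (3 ^ (6 * m) + 4 ^ (3 * (2 * m - 1)) * ((C : ℝ) ^ 3 *
          (288 * (2 * (A1 : ℝ)) ^ 2)))) * (N : ℝ) ^ (2 * (6 * m) - (n + 1 + 1)) := by
      refine hst.trans ?_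
      rw [t2]
      calc (2 : ℝ) ^ (6 * m) * ((I.card : ℝ) ^ (6 * m) +
            4 ^ (3 * (2 * m - 1)) * ((C : ℝ) ^ 3 * (288 * (2 * (A1 : ℝ)) ^ 2)) *
              (N : ℝ) ^ (2 * (6 * m) - (n + 1 + 1)))
          ≤ (2 : ℝ) ^ (6 * m) * (3 ^ (6 * m) * (N : ℝ) ^ (2 * (6 * m) - (n + 1 + 1)) +
            4 ^ (3 * (2 * m - 1)) * ((C : ℝ) ^ 3 * (288 * (2 * (A1 : ℝ)) ^ 2)) *
              (N : ℝ) ^ (2 * (6 * m) - (n + 1 + 1))) := by
            apply mul_le_mul_of_nonneg_left _ (by positivity)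
            linarith
        _ = _ := by ring
    have hfin2 : (cnt (6 * m) I (ev a (n + 1 + 1)) 0 : ℝ) ≤
        ((⌈(2 : ℝ) ^ (6 * m) * (3 ^ (6 * m) + 4 ^ (3 * (2 * m - 1)) * ((C : ℝ) ^ 3 *
          (288 * (2 * (A1 : ℝ)) ^ 2)))⌉₊ * N ^ (2 * (6 * m) - (n + 1 + 1)) : ℕ) : ℝ) := by
      refine hfin.trans ?_
      rw [Nat.cast_mul, Nat.cast_pow]
      exact mul_le_mul_of_nonneg_right (Nat.le_ceil _) (by positivity)
    exact_mod_cast hfin2

end Pool.Agent.Helper83.LB
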