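import Pool.Agent.Helper83.LB.Step

/-!
# LB: polynomials by coefficients and their differences
-/

namespace Pool.Agent.Helper83.LB

open Finset

/-- `∑_{j ≤ n} a_j y^j`. -/
def ev (a : ℕ → ℤ) (n : ℕ) (y : ℤ) : ℤ := ∑ j ∈ range (n + 1), a j * y ^ j

/-- The coefficients of `(f(y + h) - f(y)) / h`, where `f` has degree `n + 1`. -/
def da (a : ℕ → ℤ) (n : ℕ) (h : ℤ) (j : ℕ) : ℤ :=
  ∑ i ∈ Ioc j (n + 1), a i * (i.choose j : ℤ) * h ^ (i - j - 1)

theorem pow_diff (i : ℕ) (y h : ℤ) :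
    (y + h) ^ i - y ^ i = h * ∑ j ∈ range i, (i.choose j : ℤ) * h ^ (i - j - 1) * y ^ j := by
  rw [add_pow, sum_range_succ, Nat.sub_self, pow_zero, mul_one, Nat.choose_self, Nat.cast_one,
    mul_one, add_sub_cancel_right, mul_sum]
  apply sum_congr rfl
  intro j hj
  have hj' := mem_range.mp hj
  have e : h ^ (i - j) = h * h ^ (i - j - 1) := by
    rw [← pow_succ']
    congr 1
    omega
  rw [e]
  ring

theorem ev_diff (a : ℕ → ℤ) (n : ℕ) (h y : ℤ) :
    ev a (n + 1) (y + h) - ev a (n + 1) y = h * ev (da a n h) n y := by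
  have h1 : ev a (n + 1) (y + h) - ev a (n + 1) y =
      ∑ i ∈ range (n + 1 + 1), ∑ j ∈ range i,
        h * (a i * (i.choose j : ℤ) * h ^ (i - j - 1) * y ^ j) := by
    rw [ev, ev, ← sum_sub_distrib]
    apply sum_congr rfl
    intro i _
    rw [← mul_sub, pow_diff, mul_left_comm, mul_sum, mul_sum]
    apply sum_congr rfl
    intro j _
    ring
  have h2 : h * ev (da a n h) n y = ∑ j ∈ range (n + 1), ∑ i ∈ Ioc j (n + 1),
      h * (a i * (i.choose j : ℤ) * h ^ (i - j - 1) * y ^ j) := by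
    rw [ev, mul_sum]
    apply sum_congr rfl
    intro j _
    rw [da, sum_mul, mul_sum]
  rw [h1, h2]
  apply sum_comm'
  intro i j
  simp only [mem_range, mem_Ioc]
  omega

/-- The size condition on the coefficients. -/
def Bd (c n N : ℕ) (a : ℕ → ℤ) : Prop := a n ≠ 0 ∧ ∀ j ≤ n, (a j).natAbs ≤ c * N ^ (n - j)

theorem ev_bound {c n N : ℕ} {a : ℕ → ℤ} (ha : Bd c n N a) {y : ℤ} (hy : y.natAbs ≤ N) :
    (ev a n y).natAbs ≤ (n + 1) * c * N ^ n := by
  have h1 : (ev a n y).natAbs ≤ ∑ j ∈ range (n + 1), c * N ^ n := by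
    refine (Int.natAbs_sum_le _ _).trans (sum_le_sum fun j hj => ?_)
    have hj' : j ≤ n := Nat.lt_succ_iff.mp (mem_range.mp hj)
    rw [Int.natAbs_mul, Int.natAbs_pow]
    calc (a j).natAbs * y.natAbs ^ j ≤ (c * N ^ (n - j)) * N ^ j :=
          Nat.mul_le_mul (ha.2 j hj') (Nat.pow_le_pow_left hy j)
      _ = c * N ^ n := by rw [mul_assoc, ← pow_add, Nat.sub_add_cancel hj']
  refine h1.trans (le_of_eq ?_)
  rw [sum_const, card_range, smul_eq_mul, mul_assoc]

theorem da_lead (a : ℕ → ℤ) (n : ℕ) (h : ℤ) : da a n h n = (n + 1 : ℤ) * a (n + 1) := by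
  have h1 : Ioc n (n + 1) = {n + 1} := by
    ext x; rw [mem_Ioc, mem_singleton]; omega
  rw [da, h1, sum_singleton, Nat.choose_succ_self_right]
  have h2 : n + 1 - n - 1 = 0 := by omega
  rw [h2, pow_zero]
  push_cast
  ring

theorem da_bd {c n N : ℕ} {a : ℕ → ℤ} (ha : Bd c (n + 1) N a) {h : ℤ}
    (hh : h.natAbs ≤ 2 * N) : Bd ((n + 2) * c * 4 ^ (n + 1)) n N (da a n h) := by
  constructor
  · rw [da_lead]
    exact mul_ne_zero (by positivity) ha.1
  · intro j hj
    have h1 : (da a n h j).natAbs ≤ ∑ i ∈ Ioc j (n + 1), c * 4 ^ (n + 1) * N ^ (n - j) := by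
      refine (Int.natAbs_sum_le _ _).trans (sum_le_sum fun i hi => ?_)
      obtain ⟨hi1, hi2⟩ := mem_Ioc.mp hi
      rw [Int.natAbs_mul, Int.natAbs_mul, Int.natAbs_pow, Int.natAbs_natCast]
      have e1 : i.choose j ≤ 2 ^ (n + 1) :=
        (Nat.choose_le_two_pow i j).trans (Nat.pow_le_pow_right (by norm_num) hi2)
      have e2 : h.natAbs ^ (i - j - 1) ≤ 2 ^ (n + 1) * N ^ (i - j - 1) := by
        calc h.natAbs ^ (i - j - 1) ≤ (2 * N) ^ (i - j - 1) := Nat.pow_le_pow_left hh _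
          _ = 2 ^ (i - j - 1) * N ^ (i - j - 1) := by rw [mul_pow]
          _ ≤ 2 ^ (n + 1) * N ^ (i - j - 1) :=
            Nat.mul_le_mul_right _ (Nat.pow_le_pow_right (by norm_num) (by omega))
      calc (a i).natAbs * i.choose j * h.natAbs ^ (i - j - 1)
          ≤ (c * N ^ (n + 1 - i)) * 2 ^ (n + 1) * (2 ^ (n + 1) * N ^ (i - j - 1)) :=
            Nat.mul_le_mul (Nat.mul_le_mul (ha.2 i hi2) e1) e2
        _ = c * (2 ^ (n + 1) * 2 ^ (n + 1)) * (N ^ (n + 1 - i) * N ^ (i - j - 1)) := by ring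
        _ = c * 4 ^ (n + 1) * N ^ (n - j) := by
            rw [← mul_pow, ← pow_add]
            norm_num
            left
            congr 1
            omega
    refine h1.trans ?_
    rw [sum_const, Nat.card_Ioc, smul_eq_mul]
    calc (n + 1 - j) * (c * 4 ^ (n + 1) * N ^ (n - j))
        ≤ (n + 2) * (c * 4 ^ (n + 1) * N ^ (n - j)) := Nat.mul_le_mul_right _ (by omega)
      _ = (n + 2) * c * 4 ^ (n + 1) * N ^ (n - j) := by ring

end Pool.Agent.Helper83.LB
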