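import Pool.Agent.Helper83.LB.Energy

/-!
# LB: the induction step
-/

namespace Pool.Agent.Helper83.LB

open Finset

/-- The elements `y` of `I` with `y + h ∈ I`. -/
noncomputable def IH (I : Finset ℤ) (h : ℤ) : Finset ℤ := I.filter (fun y => y + h ∈ I)

theorem IH_sub (I : Finset ℤ) (h : ℤ) : IH I h ⊆ I := filter_subset _ _

section char

variable {q : ℕ} [NeZero q]

/-- Weyl differencing. -/
theorem weyl {N : ℕ} {I : Finset ℤ} (hI : I ⊆ bx N) {f : ℤ → ℤ} {φ : ℤ → ℤ → ℤ}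
    (hφ : ∀ h y, f (y + h) - f y = h * φ h y) (a : ZMod q) :
    ‖SS I f a‖ ^ 2 ≤ (I.card : ℝ) + ∑ h ∈ nz (2 * N), ‖SS (IH I h) (fun y => h * φ h y) a‖ := by
  have h1 : ((‖SS I f a‖ ^ 2 : ℝ) : ℂ) =
      ∑ h ∈ bx (2 * N), SS (IH I h) (fun y => h * φ h y) a := by
    have e1 : ((‖SS I f a‖ ^ 2 : ℝ) : ℂ) = SS I f a * (starRingEnd ℂ) (SS I f a) := by
      rw [Complex.mul_conj, Complex.normSq_eq_norm_sq]
    rw [e1, SS, map_sum, sum_mul_sum, sum_comm]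
    have e2 : ∀ y ∈ I, ∑ x ∈ I, ee a (f x) * (starRingEnd ℂ) (ee a (f y)) =
        ∑ h ∈ bx (2 * N), if y + h ∈ I then ee a (h * φ h y) else 0 := by
      intro y hy
      rw [← sum_filter]
      symm
      apply sum_bij (fun h _ => y + h)
      · intro h hh; exact (mem_filter.mp hh).2
      · intro h _ h' _ he; omega
      · intro x hx
        refine ⟨x - y, ?_, by ring⟩
        rw [mem_filter]
        have hx' := mem_bx.mp (hI hx)
        have hy' := mem_bx.mp (hI hy)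
        refine ⟨mem_bx.mpr (by omega), ?_⟩
        have : y + (x - y) = x := by ring
        rw [this]; exact hx
      · intro h _
        rw [conj_ee, ← ee_add, ← sub_eq_add_neg, hφ]
    rw [sum_congr rfl e2, sum_comm]
    apply sum_congr rfl
    intro h _
    rw [SS, IH, sum_filter]
  have h2 : bx (2 * N) = insert 0 (nz (2 * N)) := by
    ext z
    rw [mem_insert, mem_bx, mem_nz]
    by_cases hz : z = 0
    · simp [hz]
    · simp [hz]
  have h3 : ‖SS I f a‖ ^ 2 = ‖((‖SS I f a‖ ^ 2 : ℝ) : ℂ)‖ := by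
    rw [Complex.norm_real, Real.norm_of_nonneg (by positivity)]
  rw [h3, h1, h2, sum_insert (by simp [mem_nz])]
  refine (norm_add_le _ _).trans (add_le_add ?_ (norm_sum_le _ _))
  refine (norm_sum_le _ _).trans ?_
  simp only [norm_ee, sum_const, nsmul_eq_mul, mul_one]
  exact_mod_cast card_le_card (IH_sub I 0)

/-- The pairs `(h, p)` with `p` a pair of `m`-tuples of elements of `IH I h`. -/
noncomputable def Om (m N : ℕ) (I : Finset ℤ) : Finset (Σ _ : ℤ, (Fin m → ℤ) × (Fin m → ℤ)) :=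
  (nz (2 * N)).sigma (fun h => JJ m (IH I h))

/-- The frequency of `(h, p)`. -/
def ww {m : ℕ} (φ : ℤ → ℤ → ℤ) (x : Σ _ : ℤ, (Fin m → ℤ) × (Fin m → ℤ)) : ℤ :=
  x.1 * vv (φ x.1) x.2

theorem vv_mul {m : ℕ} (h : ℤ) (g : ℤ → ℤ) (p : (Fin m → ℤ) × (Fin m → ℤ)) :
    vv (fun y => h * g y) p = h * vv g p := by
  simp only [vv, mul_sub, mul_sum]

theorem sum_norm_pow (m N : ℕ) (I : Finset ℤ) (φ : ℤ → ℤ → ℤ) (a : ZMod q) :
    ((∑ h ∈ nz (2 * N), ‖SS (IH I h) (fun y => h * φ h y) a‖ ^ (2 * m) : ℝ) : ℂ) =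
      ∑ x ∈ Om m N I, ee a (ww φ x) := by
  rw [Complex.ofReal_sum, Om, sum_sigma]
  apply sum_congr rfl
  intro h _
  rw [SS_norm_pow]
  apply sum_congr rfl
  intro p _
  rw [vv_mul, ww]

theorem cube (m N : ℕ) (I : Finset ℤ) (φ : ℤ → ℤ → ℤ) (a : ZMod q) :
    (((∑ h ∈ nz (2 * N), ‖SS (IH I h) (fun y => h * φ h y) a‖ ^ (2 * m)) ^ 3 : ℝ) : ℂ) =
      ∑ x ∈ Om m N I ×ˢ Om m N I ×ˢ Om m N I,
        ee a (ww φ x.1 + ww φ x.2.1 + ww φ x.2.2) := by
  rw [Complex.ofReal_pow, sum_norm_pow, pow_succ, sq, sum_mul_sum, sum_mul_sum, sum_product]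
  apply sum_congr rfl
  intro x _
  rw [sum_product, sum_congr rfl (fun y _ => rfl)]
  simp only [sum_mul]
  rw [sum_comm]
  apply sum_congr rfl
  intro y _
  apply sum_congr rfl
  intro z _
  rw [ee_add, ee_add]

end char

/-- The solutions are mapped to solutions of the bilinear equation with few elements in each fibre. -/
theorem card_sol {m N A Bm : ℕ} {I : Finset ℤ} {φ : ℤ → ℤ → ℤ}
    (hA : ∀ h ∈ nz (2 * N), ∀ p ∈ JJ m (IH I h), vv (φ h) p ∈ bx A)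
    (hB : ∀ h ∈ nz (2 * N), ∀ z, cnt m (IH I h) (φ h) z ≤ Bm) :
    ((Om m N I ×ˢ Om m N I ×ˢ Om m N I).filter
      (fun x => ww φ x.1 + ww φ x.2.1 + ww φ x.2.2 = 0)).card ≤ Bm ^ 3 * (tri A (2 * N)).card := by
  set s := (Om m N I ×ˢ Om m N I ×ˢ Om m N I).filter
      (fun x => ww φ x.1 + ww φ x.2.1 + ww φ x.2.2 = 0) with hs
  let g : (Σ _ : ℤ, (Fin m → ℤ) × (Fin m → ℤ)) → ℤ × ℤ := fun x => (x.1, vv (φ x.1) x.2)
  let G : (Σ _ : ℤ, (Fin m → ℤ) × (Fin m → ℤ)) × (Σ _ : ℤ, (Fin m → ℤ) × (Fin m → ℤ)) ×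
      (Σ _ : ℤ, (Fin m → ℤ) × (Fin m → ℤ)) → (ℤ × ℤ) × (ℤ × ℤ) × (ℤ × ℤ) :=
    fun x => (g x.1, g x.2.1, g x.2.2)
  have hmem : ∀ x ∈ Om m N I, x.1 ∈ nz (2 * N) ∧ x.2 ∈ JJ m (IH I x.1) := by
    intro x hx
    exact mem_sigma.mp hx
  have h1 : s.card ≤ Bm ^ 3 * (s.image G).card := by
    apply card_le_mul_card_image
    rintro ⟨b1, b2, b3⟩ hb
    obtain ⟨x, hx, hxb⟩ := mem_image.mp hb
    have hx' := mem_product.mp (mem_filter.mp hx).1
    have hx'' := mem_product.mp hx'.2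
    have fib : ∀ b : ℤ × ℤ, b.1 ∈ nz (2 * N) →
        ((Om m N I).filter (fun x => g x = b)).card ≤ Bm := by
      rintro ⟨h, z⟩ hh
      refine le_trans ?_ (hB h hh z)
      rw [cnt]
      apply card_le_card_of_injOn (fun x => x.2)
      · rintro ⟨h', p⟩ hy
        rw [mem_coe, mem_filter] at hy
        obtain ⟨hy1, hy2⟩ := hy
        have e1 : h' = h := congrArg Prod.fst hy2
        have e2 : vv (φ h') p = z := congrArg Prod.snd hy2
        subst e1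
        rw [mem_coe, mem_filter]
        exact ⟨(hmem _ hy1).2, e2⟩
      · rintro ⟨h', p⟩ hy ⟨h'', p'⟩ hy' he
        rw [mem_coe, mem_filter] at hy hy'
        have e1 : h' = h := congrArg Prod.fst hy.2
        have e1' : h'' = h := congrArg Prod.fst hy'.2
        subst e1
        subst e1'
        simp only at he
        rw [he]
    have hb1 : b1.1 ∈ nz (2 * N) := by
      have : g x.1 = b1 := congrArg (fun t => t.1) hxb
      rw [← this]; exact (hmem _ hx'.1).1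
    have hb2 : b2.1 ∈ nz (2 * N) := by
      have : g x.2.1 = b2 := congrArg (fun t => t.2.1) hxb
      rw [← this]; exact (hmem _ hx''.1).1
    have hb3 : b3.1 ∈ nz (2 * N) := by
      have : g x.2.2 = b3 := congrArg (fun t => t.2.2) hxb
      rw [← this]; exact (hmem _ hx''.2).1
    calc (s.filter (fun x => G x = (b1, b2, b3))).card ≤
        (((Om m N I).filter (fun x => g x = b1)) ×ˢ ((Om m N I).filter (fun x => g x = b2)) ×ˢ
          ((Om m N I).filter (fun x => g x = b3))).card := by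
          apply card_le_card
          rintro ⟨y1, y2, y3⟩ hy
          rw [mem_filter] at hy
          obtain ⟨hy1, hy2⟩ := hy
          rw [hs, mem_filter, mem_product, mem_product] at hy1
          rw [mem_product, mem_product, mem_filter, mem_filter, mem_filter]
          exact ⟨⟨hy1.1.1, congrArg (fun t => t.1) hy2⟩, ⟨hy1.1.2.1, congrArg (fun t => t.2.1) hy2⟩,
            hy1.1.2.2, congrArg (fun t => t.2.2) hy2⟩
      _ ≤ Bm * (Bm * Bm) := by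
          rw [card_product, card_product]
          exact Nat.mul_le_mul (fib b1 hb1) (Nat.mul_le_mul (fib b2 hb2) (fib b3 hb3))
      _ = Bm ^ 3 := by ring
  refine h1.trans (Nat.mul_le_mul_left _ (card_le_card ?_))
  intro b hb
  obtain ⟨x, hx, rfl⟩ := mem_image.mp hb
  obtain ⟨hx1, hx2⟩ := mem_filter.mp hx
  have hx' := mem_product.mp hx1
  have hx'' := mem_product.mp hx'.2
  obtain ⟨a1, a2⟩ := hmem _ hx'.1
  obtain ⟨b1, b2⟩ := hmem _ hx''.1
  obtain ⟨c1, c2⟩ := hmem _ hx''.2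
  rw [tri, mem_filter, mem_product, mem_product, mem_product, mem_product, mem_product]
  exact ⟨⟨⟨a1, hA _ a1 _ a2⟩, ⟨b1, hA _ b1 _ b2⟩, ⟨c1, hA _ c1 _ c2⟩⟩, hx2⟩

theorem card_nz (B : ℕ) : (nz B).card = 2 * B := by
  rw [nz, card_erase_of_mem (by rw [mem_Icc]; omega), Int.card_Icc]
  omega

/-- The induction step. -/
theorem step {m N A Bm : ℕ} (hm : 0 < m) {I : Finset ℤ} (hI : I ⊆ bx N) {f : ℤ → ℤ}
    {φ : ℤ → ℤ → ℤ} (hφ : ∀ h y, f (y + h) - f y = h * φ h y) (hNA : 2 * N ≤ A)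
    (hA : ∀ h ∈ nz (2 * N), ∀ p ∈ JJ m (IH I h), vv (φ h) p ∈ bx A)
    (hB : ∀ h ∈ nz (2 * N), ∀ z, cnt m (IH I h) (φ h) z ≤ Bm) :
    (cnt (6 * m) I f 0 : ℝ) ≤ 2 ^ (6 * m) * ((I.card : ℝ) ^ (6 * m) +
      (4 * (N : ℝ)) ^ (3 * (2 * m - 1)) * ((Bm : ℝ) ^ 3 * (288 * ((A : ℝ) * (2 * N)) ^ 2))) := by
  obtain ⟨Q₁, hQ₁⟩ := exists_bound (JJ (6 * m) I) (vv f)
  obtain ⟨Q₂, hQ₂⟩ := exists_bound (Om m N I ×ˢ Om m N I ×ˢ Om m N I)
    (fun x => ww φ x.1 + ww φ x.2.1 + ww φ x.2.2)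
  set q := Q₁ + Q₂ + 1 with hq
  have : NeZero q := ⟨by omega⟩
  have hqpos : (0 : ℝ) < q := by positivity
  have h0 : (q : ℝ) * (cnt (6 * m) I f 0 : ℝ) = ∑ a : ZMod q, ‖SS I f a‖ ^ (2 * (6 * m)) := by
    have h0 : (q : ℂ) * (cnt (6 * m) I f 0 : ℂ) =
        ∑ a : ZMod q, ((‖SS I f a‖ ^ (2 * (6 * m)) : ℝ) : ℂ) := by
      simp only [SS_norm_pow]
      rw [mean_ee, cnt]
      congr 3
      apply filter_congr
      intro p hp
      exact (dvd_small (by have := hQ₁ p hp; omega)).symm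
    have : ((((q : ℝ) * (cnt (6 * m) I f 0 : ℝ) : ℝ)) : ℂ) =
        ((∑ a : ZMod q, ‖SS I f a‖ ^ (2 * (6 * m)) : ℝ) : ℂ) := by
      push_cast
      push_cast at h0
      exact h0
    exact_mod_cast this
  have h3 : ∑ a : ZMod q, (∑ h ∈ nz (2 * N), ‖SS (IH I h) (fun y => h * φ h y) a‖ ^ (2 * m)) ^ 3 =
      (q : ℝ) * (((Om m N I ×ˢ Om m N I ×ˢ Om m N I).filter
        (fun x => ww φ x.1 + ww φ x.2.1 + ww φ x.2.2 = 0)).card : ℝ) := by
    have h4 : ∑ a : ZMod q, (((∑ h ∈ nz (2 * N),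
        ‖SS (IH I h) (fun y => h * φ h y) a‖ ^ (2 * m)) ^ 3 : ℝ) : ℂ) =
        (q : ℂ) * (((Om m N I ×ˢ Om m N I ×ˢ Om m N I).filter
        (fun x => ww φ x.1 + ww φ x.2.1 + ww φ x.2.2 = 0)).card : ℂ) := by
      simp only [cube]
      rw [mean_ee]
      congr 3
      apply filter_congr
      intro p hp
      exact dvd_small (by have := hQ₂ p hp; omega)
    have : (((∑ a : ZMod q, (∑ h ∈ nz (2 * N),
        ‖SS (IH I h) (fun y => h * φ h y) a‖ ^ (2 * m)) ^ 3 : ℝ)) : ℂ) =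
        (((q : ℝ) * (((Om m N I ×ˢ Om m N I ×ˢ Om m N I).filter
        (fun x => ww φ x.1 + ww φ x.2.1 + ww φ x.2.2 = 0)).card : ℝ) : ℝ) : ℂ) := by
      rw [Complex.ofReal_sum, h4]
      push_cast
      rfl
    exact_mod_cast this
  have hcard : (((Om m N I ×ˢ Om m N I ×ˢ Om m N I).filter
        (fun x => ww φ x.1 + ww φ x.2.1 + ww φ x.2.2 = 0)).card : ℝ) ≤
      (Bm : ℝ) ^ 3 * (288 * ((A : ℝ) * (2 * N)) ^ 2) := by
    have e1 := card_sol (I := I) hA hB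
    have e2 := bilin hNA
    calc _ ≤ ((Bm ^ 3 * (tri A (2 * N)).card : ℕ) : ℝ) := by exact_mod_cast e1
      _ = (Bm : ℝ) ^ 3 * ((tri A (2 * N)).card : ℝ) := by push_cast; ring
      _ ≤ (Bm : ℝ) ^ 3 * (288 * ((A : ℝ) * (2 * N)) ^ 2) := by
          apply mul_le_mul_of_nonneg_left _ (by positivity)
          push_cast at e2
          exact e2
  have hpt : ∀ a : ZMod q, ‖SS I f a‖ ^ (2 * (6 * m)) ≤ 2 ^ (6 * m) * ((I.card : ℝ) ^ (6 * m) +
      (4 * (N : ℝ)) ^ (3 * (2 * m - 1)) *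
        (∑ h ∈ nz (2 * N), ‖SS (IH I h) (fun y => h * φ h y) a‖ ^ (2 * m)) ^ 3) := by
    intro a
    set W := ∑ h ∈ nz (2 * N), ‖SS (IH I h) (fun y => h * φ h y) a‖ with hW
    have hW0 : 0 ≤ W := sum_nonneg fun _ _ => norm_nonneg _
    have e1 : ‖SS I f a‖ ^ 2 ≤ (I.card : ℝ) + W := weyl hI hφ a
    have e2 : W ^ (2 * m) ≤ (4 * (N : ℝ)) ^ (2 * m - 1) *
        ∑ h ∈ nz (2 * N), ‖SS (IH I h) (fun y => h * φ h y) a‖ ^ (2 * m) := by
      obtain ⟨k, hk⟩ : ∃ k, 2 * m = k + 1 := ⟨2 * m - 1, by omega⟩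
      have e3 := pow_sum_le_card_mul_sum_pow (s := nz (2 * N))
        (f := fun h => ‖SS (IH I h) (fun y => h * φ h y) a‖) (fun _ _ => norm_nonneg _) k
      rw [card_nz] at e3
      rw [hk, Nat.add_sub_cancel]
      have e4 : (((2 * (2 * N) : ℕ)) : ℝ) = 4 * (N : ℝ) := by push_cast; ring
      rw [e4] at e3
      exact e3
    set T := ∑ h ∈ nz (2 * N), ‖SS (IH I h) (fun y => h * φ h y) a‖ ^ (2 * m) with hT
    have hT0 : 0 ≤ T := sum_nonneg fun _ _ => by positivity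
    have e5 : W ^ (6 * m) ≤ (4 * (N : ℝ)) ^ (3 * (2 * m - 1)) * T ^ 3 := by
      have e6 : W ^ (6 * m) = (W ^ (2 * m)) ^ 3 := by rw [← pow_mul]; congr 1; ring
      have e7 : (4 * (N : ℝ)) ^ (3 * (2 * m - 1)) * T ^ 3 =
          ((4 * (N : ℝ)) ^ (2 * m - 1) * T) ^ 3 := by
        rw [Nat.mul_comm 3, pow_mul, ← mul_pow]
      rw [e6, e7]
      exact pow_le_pow_left₀ (by positivity) e2 3
    have e8 : ((I.card : ℝ) + W) ^ (6 * m) ≤
        2 ^ (6 * m) * ((I.card : ℝ) ^ (6 * m) + W ^ (6 * m)) := by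
      refine (add_pow_le (by positivity) hW0 (6 * m)).trans ?_
      apply mul_le_mul_of_nonneg_right _ (by positivity)
      exact pow_le_pow_right₀ (by norm_num) (by omega)
    calc ‖SS I f a‖ ^ (2 * (6 * m)) = (‖SS I f a‖ ^ 2) ^ (6 * m) := by rw [pow_mul]
      _ ≤ ((I.card : ℝ) + W) ^ (6 * m) := pow_le_pow_left₀ (by positivity) e1 _
      _ ≤ 2 ^ (6 * m) * ((I.card : ℝ) ^ (6 * m) + W ^ (6 * m)) := e8
      _ ≤ _ := by
          apply mul_le_mul_of_nonneg_left _ (by positivity)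
          linarith
  have hsum : ∑ a : ZMod q, ‖SS I f a‖ ^ (2 * (6 * m)) ≤
      (q : ℝ) * (2 ^ (6 * m) * ((I.card : ℝ) ^ (6 * m) +
      (4 * (N : ℝ)) ^ (3 * (2 * m - 1)) * ((Bm : ℝ) ^ 3 * (288 * ((A : ℝ) * (2 * N)) ^ 2)))) := by
    refine (sum_le_sum fun a _ => hpt a).trans ?_
    rw [← mul_sum, sum_add_distrib, ← mul_sum, h3, sum_const, card_univ, ZMod.card, nsmul_eq_mul]
    have e9 : (q : ℝ) * (I.card : ℝ) ^ (6 * m) + (4 * (N : ℝ)) ^ (3 * (2 * m - 1)) *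
        ((q : ℝ) * (((Om m N I ×ˢ Om m N I ×ˢ Om m N I).filter
        (fun x => ww φ x.1 + ww φ x.2.1 + ww φ x.2.2 = 0)).card : ℝ)) ≤
        (q : ℝ) * ((I.card : ℝ) ^ (6 * m) + (4 * (N : ℝ)) ^ (3 * (2 * m - 1)) *
          ((Bm : ℝ) ^ 3 * (288 * ((A : ℝ) * (2 * N)) ^ 2))) := by
      rw [mul_add]
      apply add_le_add le_rfl
      have : (0 : ℝ) ≤ (4 * (N : ℝ)) ^ (3 * (2 * m - 1)) := by positivity
      calc (4 * (N : ℝ)) ^ (3 * (2 * m - 1)) *
          ((q : ℝ) * (((Om m N I ×ˢ Om m N I ×ˢ Om m N I).filter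
          (fun x => ww φ x.1 + ww φ x.2.1 + ww φ x.2.2 = 0)).card : ℝ)) =
          (q : ℝ) * ((4 * (N : ℝ)) ^ (3 * (2 * m - 1)) *
          (((Om m N I ×ˢ Om m N I ×ˢ Om m N I).filter
          (fun x => ww φ x.1 + ww φ x.2.1 + ww φ x.2.2 = 0)).card : ℝ)) := by ring
        _ ≤ _ := by
          apply mul_le_mul_of_nonneg_left _ hqpos.le
          exact mul_le_mul_of_nonneg_left hcard this
    calc _ ≤ 2 ^ (6 * m) * _ := mul_le_mul_of_nonneg_left e9 (by positivity)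
      _ = _ := by ring
  rw [← h0] at hsum
  exact le_of_mul_le_mul_left hsum hqpos

end Pool.Agent.Helper83.LB
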